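import Pool.Agent.H902Z.PG.Main

set_option autoImplicit false

namespace Pool.Agent.Results.MP_89ce39_al.AEveryGroup

open Pool.Agent.H902Z.PG

universe u

/-- Every group is isomorphic to a maximal subgroup (the H-class of an idempotent) of the free
projection-generated semigroup over the projection algebra of some regular star-semigroup. -/
theorem result (G : Type u) [Group G] :
    ∃ (S : Type u) (_ : Semigroup S) (_ : StarMul S), (∀ a : S, a * star a * a = a) ∧
      ∃ e : PG S, e * e = e ∧ ∃ f : G → PG S, (∀ g h : G, f (g * h) = f g * f h) ∧
        Function.Injective f ∧ Set.range f = {w : PG S | GreenH w e} :=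
  main G

end Pool.Agent.Results.MP_89ce39_al.AEveryGroup
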